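import Pool.Agent.Helper34.ST.Basic

set_option autoImplicit false

/-! # Chain lemma (CHAIN) -/

namespace Pool.Agent.Helper34.ST

open Finset

theorem chain_pairs {ι : Type} (w : ι → ι → ℝ) (h3 : ∀ i j, w i j + w j i ≤ 1) (I : Finset ι) :
    2 * ∑ u ∈ I, ∑ v ∈ I, w u v ≤ (I.card : ℝ) ^ 2 := by
  have h1 : ∑ u ∈ I, ∑ v ∈ I, w u v = ∑ u ∈ I, ∑ v ∈ I, w v u := Finset.sum_comm
  have h2 : 2 * ∑ u ∈ I, ∑ v ∈ I, w u v = ∑ u ∈ I, ∑ v ∈ I, (w u v + w v u) := by
    simp only [Finset.sum_add_distrib]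
    rw [← h1]
    ring
  rw [h2]
  calc ∑ u ∈ I, ∑ v ∈ I, (w u v + w v u) ≤ ∑ u ∈ I, ∑ v ∈ I, (1 : ℝ) :=
        Finset.sum_le_sum fun u _ => Finset.sum_le_sum fun v _ => h3 u v
    _ = (I.card : ℝ) ^ 2 := by
        simp only [Finset.sum_const, nsmul_eq_mul, mul_one]
        ring

theorem st_CHAIN : ST_CHAIN := by
  classical
  intro ι _ _ r d hd hW Q N hmono h0 hN
  -- the last index where the two sets are disjoint
  have hex : ∃ m, ¬ (∀ u, (∀ v, r u v → v ∈ Q m) → u ∉ Q (m + 1)) := by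
    refine ⟨N, fun h => ?_⟩
    have hu : (Classical.arbitrary ι) ∈ Q (N + 1) := by
      apply hmono (Nat.le_succ N)
      rw [hN]
      exact Set.mem_univ _
    exact h (Classical.arbitrary ι) (fun v _ => by rw [hN]; exact Set.mem_univ _) hu
  have hfind := Nat.find_spec hex
  have hmin : ∀ m, m < Nat.find hex → ∀ u, (∀ v, r u v → v ∈ Q m) → u ∉ Q (m + 1) := by
    intro m hm
    have := Nat.find_min hex hm
    push Not at this
    exact this
  have hne0 : Nat.find hex ≠ 0 := by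
    intro h
    rw [h] at hfind
    apply hfind
    intro u hu
    obtain ⟨v, hv⟩ := hW.exists_out hd u
    have := hu v hv
    rw [h0] at this
    exact absurd this (Set.notMem_empty v)
  have hleN : Nat.find hex ≤ N := by
    apply Nat.find_min'
    intro h
    have hu : (Classical.arbitrary ι) ∈ Q (N + 1) := by
      apply hmono (Nat.le_succ N)
      rw [hN]
      exact Set.mem_univ _
    exact h (Classical.arbitrary ι) (fun v _ => by rw [hN]; exact Set.mem_univ _) hu
  obtain ⟨m, hm⟩ := Nat.exists_eq_succ_of_ne_zero hne0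
  have hP := hmin m (by omega)
  rw [hm, Nat.succ_eq_add_one] at hfind
  push Not at hfind
  obtain ⟨u, hu1, hu2⟩ := hfind
  refine ⟨m, by omega, ?_⟩
  set I : Finset ι := univ.filter (fun x => x ∈ Q (m + 1) ∧ ∀ v, r x v → v ∈ Q (m + 1)) with hI
  set J : Finset ι := univ.filter (fun x => x ∈ Q (m + 1) ∧ ¬ ∀ v, r x v → v ∈ Q (m + 1)) with hJ
  have hdisj : Disjoint I J := by
    rw [Finset.disjoint_left]
    intro x hx hx2
    rw [hI, mem_filter] at hx
    rw [hJ, mem_filter] at hx2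
    exact hx2.2.2 hx.2.2
  have hmemU : ∀ x, x ∈ I ∪ J ↔ x ∈ Q (m + 1) := by
    intro x
    rw [mem_union, hI, hJ, mem_filter, mem_filter]
    constructor
    · rintro (h | h)
      · exact h.2.1
      · exact h.2.1
    · intro h
      by_cases h2 : ∀ v, r x v → v ∈ Q (m + 1)
      · exact Or.inl ⟨mem_univ _, h, h2⟩
      · exact Or.inr ⟨mem_univ _, h, h2⟩
  have e1 : (Q (m + 1) \ {u | ∀ v, r u v → v ∈ Q m}).ncard = I.card + J.card := by
    have : Q (m + 1) \ {u | ∀ v, r u v → v ∈ Q m} = ((I ∪ J : Finset ι) : Set ι) := by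
      ext x
      rw [Set.mem_sdiff, Set.mem_ofPred_eq, Finset.mem_coe, hmemU]
      exact ⟨fun h => h.1, fun h => ⟨h, fun h2 => hP x h2 h⟩⟩
    rw [this, Set.ncard_coe_finset, Finset.card_union_of_disjoint hdisj]
  have e2 : J.card ≤ (Q (m + 2) \ {u | ∀ v, r u v → v ∈ Q (m + 1)}).ncard := by
    rw [← Set.ncard_coe_finset]
    apply Set.ncard_le_ncard
    · intro x hx
      rw [Finset.mem_coe, hJ, mem_filter] at hx
      exact ⟨hmono (Nat.le_succ (m + 1)) hx.2.1, hx.2.2⟩
    · exact Set.toFinite _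
  have e2' : (J.card : ℝ) ≤ ((Q (m + 2) \ {u | ∀ v, r u v → v ∈ Q (m + 1)}).ncard : ℝ) := by
    exact_mod_cast e2
  have e3 : d ≤ (I.card + J.card : ℝ) := by
    have h1 := hW.ncard u
    have h2 : {y | r u y}.ncard ≤ I.card + J.card := by
      rw [← Finset.card_union_of_disjoint hdisj, ← Set.ncard_coe_finset]
      apply Set.ncard_le_ncard
      · intro y hy
        rw [Finset.mem_coe, hmemU]
        exact hu1 y hy
      · exact Set.toFinite _
    have h3 : ({y | r u y}.ncard : ℝ) ≤ I.card + J.card := by exact_mod_cast h2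
    linarith
  rw [e1]
  push_cast
  by_cases hI0 : I.card = 0
  · rw [hI0] at e3 ⊢
    push_cast at e3 ⊢
    linarith
  · have hIpos : (0 : ℝ) < I.card := by exact_mod_cast Nat.pos_of_ne_zero hI0
    obtain ⟨w, w1, w2, w3, w4⟩ := hW
    have hw1 : ∀ i j, w i j ≤ 1 := fun i j => by
      have := w3 i j
      have := w1 j i
      linarith
    have h5 : ∀ x ∈ I, d ≤ (∑ v ∈ I, w x v) + J.card := by
      intro x hx
      have h6 := w4 x
      have h7 : ∑ v, w x v = ∑ v ∈ I ∪ J, w x v := by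
        symm
        apply Finset.sum_subset (Finset.subset_univ _)
        intro v _ hv
        rw [hmemU] at hv
        by_contra h8
        have h9 : 0 < w x v := lt_of_le_of_ne (w1 x v) (Ne.symm h8)
        rw [hI, mem_filter] at hx
        exact hv (hx.2.2 v (w2 x v h9))
      rw [h7, Finset.sum_union hdisj] at h6
      have h8 : ∑ v ∈ J, w x v ≤ J.card := by
        calc ∑ v ∈ J, w x v ≤ ∑ v ∈ J, (1 : ℝ) := Finset.sum_le_sum fun v _ => hw1 x v
          _ = J.card := by rw [Finset.sum_const, nsmul_eq_mul, mul_one]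
      linarith
    have h6 : (I.card : ℝ) * d ≤ (∑ x ∈ I, ∑ v ∈ I, w x v) + I.card * J.card := by
      calc (I.card : ℝ) * d = ∑ x ∈ I, d := by rw [Finset.sum_const, nsmul_eq_mul]
        _ ≤ ∑ x ∈ I, ((∑ v ∈ I, w x v) + J.card) := Finset.sum_le_sum h5
        _ = _ := by rw [Finset.sum_add_distrib, Finset.sum_const, nsmul_eq_mul]
    have h7 := chain_pairs w w3 I
    have h8 : (I.card : ℝ) * (2 * d) ≤ I.card * (I.card + 2 * J.card) := by nlinarith
    have h9 : 2 * d ≤ I.card + 2 * J.card := le_of_mul_le_mul_left h8 hIpos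
    linarith

end Pool.Agent.Helper34.ST
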