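import Pool.Agent.Helper34.ST.Basic

set_option autoImplicit false

/-! # Cheap path in a class closed under children (NLB) -/

namespace Pool.Agent.Helper34.ST

open Finset

theorem nlb_shift (f : ℤ → ℝ) (L : ℕ) (hf : ∀ i, f (i + L) = f i) (k : ℕ) :
    ∑ o ∈ range L, f ((o : ℤ) + k) = ∑ o ∈ range L, f (o : ℤ) := by
  induction k with
  | zero => simp
  | succ k ih =>
    rw [← ih]
    have h1 : ∑ o ∈ range L, f ((o : ℤ) + ((k + 1 : ℕ) : ℤ)) =
        ∑ o ∈ range L, f (((o + 1 : ℕ) : ℤ) + k) := by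
      refine Finset.sum_congr rfl fun o _ => ?_
      congr 1
      push_cast
      ring
    rw [h1]
    have h2 := Finset.sum_range_succ (fun o : ℕ => f ((o : ℤ) + k)) L
    have h3 := Finset.sum_range_succ' (fun o : ℕ => f ((o : ℤ) + k)) L
    have h4 : f ((L : ℤ) + k) = f (((0 : ℕ) : ℤ) + k) := by
      have := hf k
      rw [add_comm (k : ℤ) (L : ℤ)] at this
      rw [this]
      simp
    rw [h2, h4] at h3
    linarith

theorem st_NLB (h : ST_MMCS) : ST_NLB := by
  intro ι _ r d hd hW z hz j e x hcl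
  obtain ⟨L, u, hL, hdir, huC, hper, hsum⟩ := h ι r d hd hW.toO z hz {y | Conn r j x y}
    ⟨x, Relation.ReflTransGen.refl⟩ (fun v hv y hy => hcl v y hv hy)
  have hL0 : (0 : ℝ) < L := by exact_mod_cast hL
  have hA : ∀ k : ℕ, ∑ o ∈ range L, z (u ((o : ℤ) + k)) ≤ L := by
    intro k
    rw [nlb_shift (fun i => z (u i)) L (fun i => by rw [hper]) k]
    exact hsum
  have htot : ∑ o ∈ range L, ∑ i ∈ range j,
      (e i : ℝ) * (z (u ((o : ℤ) + i)) + z (u ((o : ℤ) + (i + 1 : ℕ)))) ≤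
      ∑ o ∈ range L, (2 * ∑ i ∈ range j, (e i : ℝ)) := by
    rw [Finset.sum_comm, Finset.sum_const, Finset.card_range, nsmul_eq_mul, Finset.mul_sum,
      Finset.mul_sum]
    refine Finset.sum_le_sum fun i _ => ?_
    rw [← Finset.mul_sum, Finset.sum_add_distrib]
    have h1 := hA i
    have h2 := hA (i + 1)
    have h3 : (0 : ℝ) ≤ e i := Nat.cast_nonneg _
    nlinarith
  obtain ⟨o, _, ho⟩ := Finset.exists_le_of_sum_le (Finset.nonempty_range_iff.2 (by omega)) htot
  refine ⟨fun i => u ((o : ℤ) + i), ?_, ?_, ?_⟩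
  · intro i _
    have h1 := hdir ((o : ℤ) + i)
    have h2 : (o : ℤ) + i + 1 = (o : ℤ) + ((i + 1 : ℕ) : ℤ) := by
      push_cast
      ring
    rw [h2] at h1
    exact h1
  · exact huC _
  · exact ho

end Pool.Agent.Helper34.ST
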